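import Pool.Agent.X186.FP.Final

/-!
# A bounded set in the hyperbolic plane with a fixed point free free group of piecewise isometries

The hyperbolic plane is the upper half plane `ℍ` with its hyperbolic metric.
-/

set_option autoImplicit false

open UpperHalfPlane

namespace Pool.Agent.Results.MP_e721cf_gt.FreeAction

open Pool.Agent.X186.FP

/-- There is a bounded subset `X` of the hyperbolic plane with nonempty interior that carries two
piecewise isometries `φ`, `ψ` which freely generate a free group, such that no nontrivial element of
this group has a fixed point in `X`. -/
theorem result : ∃ X : Set ℍ, Bornology.IsBounded X ∧ (interior X).Nonempty ∧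
    ∃ φ ψ : Equiv.Perm X, IsPiecewiseIsometry φ ∧ IsPiecewiseIsometry ψ ∧
      Function.Injective (FreeGroup.lift ![φ, ψ]) ∧
      ∀ g ∈ Subgroup.closure {φ, ψ}, (∃ x, g x = x) → g = 1 :=
  main

end Pool.Agent.Results.MP_e721cf_gt.FreeAction
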